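import Pool.Agent.helper60.XP.SpecD

/-!
# Project xp (MP_af9036_an): exactness of the iterate (DEG)
-/

set_option autoImplicit false

open Complex Metric Set Filter Topology MeasureTheory

noncomputable section

namespace XPD

theorem DEG_it (f : Polynomial ℂ) (j : ℕ) :
    ∃ Q : Polynomial ℂ, ∀ z, (fun w => f.eval w)^[j] z = Q.eval z := by
  induction j with
  | zero => exact ⟨Polynomial.X, fun z => by simp⟩
  | succ j ih =>
    obtain ⟨Q, hQ⟩ := ih
    refine ⟨f.comp Q, fun z => ?_⟩
    rw [Function.iterate_succ_apply', Polynomial.eval_comp, hQ]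

theorem DEG_cyc {k : ℕ} [NeZero k] (f : Polynomial ℂ) (b : ZMod k → ℂ) (hc : PPS.IsCyc f b) (j : ℕ)
    (l : ZMod k) : (fun w => f.eval w)^[j] (b l) = b (l + j) := by
  induction j with
  | zero => simp
  | succ j ih =>
    rw [Function.iterate_succ_apply', ih]
    show f.eval (b (l + j)) = _
    rw [hc.step]
    push_cast
    congr 1
    ring

theorem DEG_main {k : ℕ} [NeZero k] (f : Polynomial ℂ) (b g : ZMod k → ℂ) (hc : PPS.IsCyc f b)
    (he : PPS.Exact f b g) (l : ZMod k) (j : ℕ) :
    deriv ((fun w => f.eval w)^[j]) (b l) ≠ 0 ∧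
    g (l + j) = g l / deriv ((fun w => f.eval w)^[j]) (b l) -
      deriv (deriv ((fun w => f.eval w)^[j])) (b l) / deriv ((fun w => f.eval w)^[j]) (b l) ^ 2 := by
  induction j with
  | zero =>
    have h0 : ((fun w => f.eval w)^[0]) = fun z => z := by funext z; simp
    rw [h0]
    have h1 : deriv (fun z : ℂ => z) = fun _ => (1 : ℂ) := by
      funext z; exact deriv_id z
    rw [h1]
    simp
  | succ j ih =>
    obtain ⟨Q, hQ⟩ := DEG_it f j
    have hF : ((fun w => f.eval w)^[j]) = fun z => Q.eval z := funext hQ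
    have hF1 : ((fun w => f.eval w)^[j + 1]) = fun z => (f.comp Q).eval z := by
      funext z
      rw [Function.iterate_succ_apply', hQ, Polynomial.eval_comp]
    have hd1 : ∀ P : Polynomial ℂ, deriv (fun z => P.eval z) = fun z => P.derivative.eval z := by
      intro P; funext z; exact Polynomial.deriv P
    rw [hF] at ih
    rw [hF1]
    simp only [hd1] at ih ⊢
    obtain ⟨ha, hg⟩ := ih
    have hQb : Q.eval (b l) = b (l + j) := by
      rw [← hQ]; exact DEG_cyc f b hc j l
    have hA : (f.comp Q).derivative.eval (b l) = PPS.fd f (b (l + j)) * Q.derivative.eval (b l) := by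
      rw [Polynomial.derivative_comp, Polynomial.eval_mul, Polynomial.eval_comp, hQb]
      unfold PPS.fd
      ring
    have hC : (f.comp Q).derivative.derivative.eval (b l) =
        PPS.fdd f (b (l + j)) * Q.derivative.eval (b l) ^ 2 +
          PPS.fd f (b (l + j)) * Q.derivative.derivative.eval (b l) := by
      rw [Polynomial.derivative_comp, Polynomial.derivative_mul, Polynomial.derivative_comp,
        Polynomial.eval_add, Polynomial.eval_mul, Polynomial.eval_mul, Polynomial.eval_mul,
        Polynomial.eval_comp, Polynomial.eval_comp, hQb]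
      unfold PPS.fd PPS.fdd
      ring
    have hfd : PPS.fd f (b (l + j)) ≠ 0 := hc.ne0 _
    refine ⟨by rw [hA]; exact mul_ne_zero hfd ha, ?_⟩
    have e1 : l + ((j + 1 : ℕ) : ZMod k) = (l + j) + 1 := by push_cast; ring
    rw [e1, he (l + j), hg, hA, hC]
    field_simp
    ring

theorem DEG (h1 : DIT_stmt) : DEG_stmt := by
  intro k _ f b g hc he i
  obtain ⟨-, -, -, -, -, hrho, -, -⟩ := h1 k f b hc
  have hr : deriv ((fun w => f.eval w)^[k]) (b i) = PPS.rho f b := hrho i
  obtain ⟨ha, hg⟩ := DEG_main f b g hc he i k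
  have hlk : i + ((k : ℕ) : ZMod k) = i := by simp
  rw [hlk, hr] at hg
  rw [hr] at ha
  show deriv (deriv ((fun w => f.eval w)^[k])) (b i) = _
  generalize deriv (deriv ((fun w => f.eval w)^[k])) (b i) = D at hg ⊢
  generalize PPS.rho f b = ρ at ha hg ⊢
  generalize g i = y at hg ⊢
  have h2 : y * ρ ^ 2 = y * ρ - D := by
    have h3 : y * ρ ^ 2 = (y / ρ - D / ρ ^ 2) * ρ ^ 2 := by rw [← hg]
    rw [h3]
    field_simp
  linear_combination h2

end XPD
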