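import Pool.Agent.helper60.XP.SpecN

/-!
# Project xp: module NAF (sums over separated poles away from the poles)
-/

set_option autoImplicit false

open Complex Metric Set Filter Topology MeasureTheory
open V3S (UF)
open XP
open XPX (nu)

noncomputable section

namespace XPN

theorem NAF (hNFA : V3.NFA_stmt) (hNPK : V3.NPK_stmt) : NAF_stmt := by
  classical
  intro C ρ hC hρ
  obtain ⟨K₀, hK₀, hF⟩ := hNFA 1 C one_pos hC
  have hρ0 : 0 < ρ := by linarith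
  refine ⟨(1 + 4 * ρ) ^ 2 * (1 + C) + K₀ * ρ, by positivity, ?_⟩
  intro ι _ p g hsep hg
  obtain ⟨-, -, a, b, hab⟩ := hF ι p g ρ hρ hρ hsep hg
  refine ⟨a, b, ?_⟩
  intro δ hδ0 hδ1 x hx hxp
  have hδ2 : 0 < δ ^ 2 := by positivity
  have hδ3 : δ ^ 2 ≤ δ := by nlinarith
  have hδ4 : δ ^ 2 ≤ 1 := by nlinarith
  have hx' : ‖x‖ ≤ ρ := by rwa [mem_closedBall, dist_zero_right] at hx
  set S : Finset ι := Finset.univ.filter fun i => ¬ 2 * ρ ≤ ‖p i‖ with hS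
  have h1 : V3.BF p g x - V3.far p g (2 * ρ) x = ∑ i ∈ S, (1 / (x - p i) ^ 2 + g i / (x - p i)) := by
    unfold V3.BF V3.far
    rw [← Finset.sum_sub_distrib, hS, Finset.sum_filter]
    refine Finset.sum_congr rfl fun i _ => ?_
    by_cases h : 2 * ρ ≤ ‖p i‖
    · rw [if_pos h, if_neg (not_not.2 h), sub_self]
    · rw [if_neg h, if_pos h, sub_zero]
  have hcard : (S.card : ℝ) ≤ (1 + 4 * ρ) ^ 2 := by
    have h2 := hNPK ι p S 1 (2 * ρ) one_pos (by linarith) (fun i _ l _ hil => hsep i l hil)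
      fun i hi => not_le.1 (Finset.mem_filter.1 hi).2
    have e : (1 + 2 * (2 * ρ) / 1 : ℝ) = 1 + 4 * ρ := by ring
    rwa [e] at h2
  have hterm : ∀ i, ‖1 / (x - p i) ^ 2 + g i / (x - p i)‖ ≤ (1 + C) / δ ^ 2 := by
    intro i
    have hd := hxp i
    have h3 : ‖1 / (x - p i) ^ 2‖ ≤ 1 / δ ^ 2 := by
      rw [norm_div, norm_one, norm_pow]
      exact one_div_le_one_div_of_le hδ2 (pow_le_pow_left₀ hδ0.le hd 2)
    have h4 : ‖g i / (x - p i)‖ ≤ C / δ ^ 2 := by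
      rw [norm_div]
      exact div_le_div₀ hC (hg i) hδ2 (hδ3.trans hd)
    calc _ ≤ _ := norm_add_le _ _
      _ ≤ 1 / δ ^ 2 + C / δ ^ 2 := add_le_add h3 h4
      _ = _ := by rw [add_div]
  have h5 : ‖V3.BF p g x - V3.far p g (2 * ρ) x‖ ≤ (1 + 4 * ρ) ^ 2 * (1 + C) / δ ^ 2 := by
    rw [h1]
    refine (norm_sum_le _ _).trans ((Finset.sum_le_sum fun i _ => hterm i).trans ?_)
    rw [Finset.sum_const, nsmul_eq_mul, mul_div_assoc]
    exact mul_le_mul_of_nonneg_right hcard (by positivity)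
  have h6 : ‖V3.far p g (2 * ρ) x - a - b * x‖ ≤ K₀ * ρ / δ ^ 2 := by
    refine (hab x hx).trans ?_
    have h7 : ‖x‖ ^ 2 ≤ ρ * ρ := by nlinarith [norm_nonneg x]
    rw [div_le_div_iff₀ hρ0 hδ2]
    have h8 : K₀ * ‖x‖ ^ 2 * δ ^ 2 ≤ K₀ * (ρ * ρ) * 1 :=
      mul_le_mul (mul_le_mul_of_nonneg_left h7 hK₀) hδ4 hδ2.le (by positivity)
    linarith
  have h9 : V3.BF p g x - a - b * x = (V3.BF p g x - V3.far p g (2 * ρ) x) +
      (V3.far p g (2 * ρ) x - a - b * x) := by ring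
  rw [h9, add_div]
  exact (norm_add_le _ _).trans (add_le_add h5 h6)

end XPN
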