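import Pool.Agent.helper54.XP.SpecG

/-!
# Project xp: module GZC (the closed chain; copy of helper59/V3/GZC.lean)
-/

set_option autoImplicit false



open Complex Metric Set Filter Topology MeasureTheory XP
open V3S (UF)

noncomputable section

namespace XPG

theorem GZC_zz (D : Dat) (h : D.sg ≠ 0) (z : ℂ) : D.zz (D.xx z) = z := by
  unfold Dat.zz Dat.xx
  field_simp
  ring

theorem GZC_add (D : Dat) (h : D.sg ≠ 0) (i j : ℕ) (x : ℂ) : D.F (i + j) x = D.F i (D.F j x) := by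
  unfold Dat.F
  rw [GZC_zz D h, Function.iterate_add_apply]

theorem GZC_cd (D : Dat) (j : ℕ) : ContDiff ℂ 1 (D.F j) := by
  have h1 : Differentiable ℂ (fun z => D.f.eval z) := D.f.differentiable
  have h2 : ContDiff ℂ 1 (fun z => D.f.eval z)^[j] := (h1.iterate j).contDiff
  unfold Dat.F Dat.xx Dat.zz
  have h3 : ContDiff ℂ 1 (fun x : ℂ => D.b 0 + D.sg * x) := by fun_prop
  exact ((h2.comp h3).sub contDiff_const).div_const _

theorem GZC_cd' (D : Dat) (j : ℕ) (a b : ℂ) :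
    ContDiffOn ℝ 1 (fun s : ℝ => D.F j (a + s * b)) (Icc 0 1) := by
  have h1 : ContDiff ℝ 1 (D.F j) := (GZC_cd D j).restrict_scalars ℝ
  have h2 : ContDiff ℝ 1 (fun s : ℝ => a + (s : ℂ) * b) :=
    contDiff_const.add (Complex.ofRealCLM.contDiff.mul contDiff_const)
  exact (h1.comp h2).contDiffOn

theorem GZC : GZC_stmt := by
  intro n C D hD x₀ l
  obtain ⟨⟨A, hA⟩, -⟩ := hD
  have hsg : D.sg ≠ 0 := by
    have h1 : D.R 0 ≠ 0 := (hA.Rpos 0).ne'
    unfold Dat.sg
    exact_mod_cast h1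
  have hNpos : 0 < D.k := lt_of_lt_of_le (by norm_num) hA.hk
  obtain ⟨a, ha⟩ : ∃ a, a = l.val := ⟨_, rfl⟩
  have haN : a < D.k := by rw [ha]; exact ZMod.val_lt l
  rw [← ha]
  obtain ⟨N, hN⟩ : ∃ N, N = D.k := ⟨_, rfl⟩
  rw [← hN] at hNpos haN ⊢
  set q : ℕ → ℕ := fun j => (j * a) % N with hq
  have hqlt : ∀ j, q j < N := fun j => Nat.mod_lt _ hNpos
  have hqs : ∀ j, q (j + 1) = (q j + a) % N := by
    intro j
    simp only [hq]
    rw [add_mul, one_mul, Nat.mod_add_mod]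
  have hq1 : ∀ j, q j + a < N → q (j + 1) = q j + a := by
    intro j h
    rw [hqs, Nat.mod_eq_of_lt h]
  have hq2 : ∀ j, ¬ q j + a < N → q (j + 1) + N = q j + a := by
    intro j h
    have h1 := hqlt j
    rw [hqs, Nat.mod_eq_sub_mod (by omega), Nat.mod_eq_of_lt (by omega)]
    omega
  set γ : ℕ → ℝ → ℂ := fun i s =>
    if i % 2 = 0 then D.F (q (i / 2)) (x₀ + s * (D.F a x₀ - x₀))
    else if q (i / 2) + a < N then D.F (q (i / 2 + 1)) x₀
    else D.F (q (i / 2 + 1)) (D.F N x₀ + s * (x₀ - D.F N x₀)) with hγ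
  have he : ∀ j (s : ℝ), γ (2 * j) s = D.F (q j) (x₀ + s * (D.F a x₀ - x₀)) := by
    intro j s
    have h1 : 2 * j % 2 = 0 := by omega
    have h2 : 2 * j / 2 = j := by omega
    simp only [hγ, h1, h2, if_true]
  have ho1 : ∀ j (s : ℝ), q j + a < N → γ (2 * j + 1) s = D.F (q (j + 1)) x₀ := by
    intro j s h
    have h1 : ¬ (2 * j + 1) % 2 = 0 := by omega
    have h2 : (2 * j + 1) / 2 = j := by omega
    simp only [hγ]
    rw [if_neg h1, h2, if_pos h]
  have ho2 : ∀ j (s : ℝ), ¬ q j + a < N →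
      γ (2 * j + 1) s = D.F (q (j + 1)) (D.F N x₀ + s * (x₀ - D.F N x₀)) := by
    intro j s h
    have h1 : ¬ (2 * j + 1) % 2 = 0 := by omega
    have h2 : (2 * j + 1) / 2 = j := by omega
    simp only [hγ]
    rw [if_neg h1, h2, if_neg h]
  refine ⟨γ, q, ⟨?_, ?_, ?_⟩, hqlt, fun j _ s => he j s, ?_⟩
  · intro i _
    rcases Nat.even_or_odd' i with ⟨j, hj | hj⟩
    · rw [hj, show γ (2 * j) = fun s : ℝ => D.F (q j) (x₀ + s * (D.F a x₀ - x₀)) from
        funext (he j)]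
      exact GZC_cd' D _ _ _
    · by_cases h : q j + a < N
      · rw [hj, show γ (2 * j + 1) = fun s : ℝ => D.F (q (j + 1)) x₀ from
          funext fun s => ho1 j s h]
        exact contDiffOn_const
      · rw [hj, show γ (2 * j + 1) = fun s : ℝ =>
          D.F (q (j + 1)) (D.F N x₀ + s * (x₀ - D.F N x₀)) from funext fun s => ho2 j s h]
        exact GZC_cd' D _ _ _
  · intro i _
    rcases Nat.even_or_odd' i with ⟨j, hj | hj⟩
    · rw [hj, he]
      have h1 : x₀ + ((1 : ℝ) : ℂ) * (D.F a x₀ - x₀) = D.F a x₀ := by push_cast; ring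
      rw [h1, ← GZC_add D hsg]
      by_cases h : q j + a < N
      · rw [ho1 j 0 h, hq1 j h]
      · rw [ho2 j 0 h]
        have h2 : D.F N x₀ + ((0 : ℝ) : ℂ) * (x₀ - D.F N x₀) = D.F N x₀ := by push_cast; ring
        rw [h2, ← GZC_add D hsg, hq2 j h]
    · rw [hj, show 2 * j + 1 + 1 = 2 * (j + 1) by ring, he]
      have h1 : x₀ + ((0 : ℝ) : ℂ) * (D.F a x₀ - x₀) = x₀ := by push_cast; ring
      rw [h1]
      by_cases h : q j + a < N
      · rw [ho1 j 1 h]
      · rw [ho2 j 1 h]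
        have h2 : D.F N x₀ + ((1 : ℝ) : ℂ) * (x₀ - D.F N x₀) = x₀ := by push_cast; ring
        rw [h2]
  · have h0 : γ 0 0 = γ (2 * 0) 0 := by rw [mul_zero]
    rw [h0, he, he]
    have h1 : q N = 0 := by simp only [hq]; exact Nat.mul_mod_right N a
    have h2 : q 0 = 0 := by simp only [hq]; rw [zero_mul, Nat.zero_mod]
    rw [h1, h2]
  · intro j _
    by_cases h : q j + a < N
    · exact Or.inl fun s => ho1 j s h
    · exact Or.inr fun s => ho2 j s h

end XPG
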