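import Pool.Agent.helper74.XP.SpecQ

/-!
# Project xp: module XLT (exact invariance of a combination)
-/

set_option autoImplicit false

open Complex Metric Set Filter Topology MeasureTheory MPS PPS Pool.Agent.helper98.ILF

noncomputable section

namespace XPP

theorem XLT_add (f : Polynomial ℂ) (p q : ℂ → ℂ) (z : ℂ) :
    TT f (fun z => p z + q z) z = TT f p z + TT f q z := by
  unfold TT
  rw [← Multiset.sum_map_add]
  refine congrArg _ (Multiset.map_congr rfl fun y _ => ?_)
  ring

theorem XLT_mul (f : Polynomial ℂ) (a : ℂ) (q : ℂ → ℂ) (z : ℂ) :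
    TT f (fun z => a * q z) z = a * TT f q z := by
  unfold TT
  rw [← Multiset.sum_map_mul_left]
  refine congrArg _ (Multiset.map_congr rfl fun y _ => ?_)
  ring

theorem XLT_zero (f : Polynomial ℂ) (z : ℂ) : TT f (fun _ => 0) z = 0 := by
  unfold TT
  simp

theorem XLT_sum (f : Polynomial ℂ) (J : Finset ℕ) (a : ℕ → ℂ) (q : ℕ → ℂ → ℂ) (z : ℂ) :
    TT f (fun z => ∑ j ∈ J, a j * q j z) z = ∑ j ∈ J, a j * TT f (q j) z := by
  classical
  induction J using Finset.induction_on with
  | empty => simpa using XLT_zero f z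
  | insert j J hj ih =>
    have h : (fun z => ∑ i ∈ insert j J, a i * q i z) = fun z => (a j * q j z) + ∑ i ∈ J, a i * q i z := by
      funext w
      rw [Finset.sum_insert hj]
    rw [h, XLT_add f (fun z => a j * q j z) (fun z => ∑ i ∈ J, a i * q i z), ih, XLT_mul, Finset.sum_insert hj]

theorem XLT : XLT_stmt := by
  intro f V O J C a s sC h0 hJ hs
  have hJ' : ∀ᵐ z : ℂ, ∀ j ∈ J, PPS.er f (C j).b (C j).g z = ∑ v ∈ V, sC j v / (z - v) := by
    exact (Filter.eventually_all_finset J).2 hJ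
  filter_upwards [h0, hJ'] with z h1 h2
  have hr : TT f (rJ J C a) z = - ∑ j ∈ J, a j * TT f (C j).B z := by
    have e : rJ J C a = fun z => (-1 : ℂ) * ∑ j ∈ J, a j * (C j).B z := by
      funext w
      simp [rJ]
    rw [e, XLT_mul f (-1) (fun z => ∑ j ∈ J, a j * (C j).B z), XLT_sum]
    ring
  rw [XLT_add f (fun z => BB O.b O.g z) (rJ J C a), hr]
  have h3 : TT f (fun z => BB O.b O.g z) z = BB O.b O.g z - ∑ v ∈ V, s v / (z - v) := by
    rw [← h1]
    simp [PPS.er]
  have h4 : ∀ j ∈ J, TT f (C j).B z = (C j).B z - ∑ v ∈ V, sC j v / (z - v) := by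
    intro j hj
    rw [← h2 j hj]
    simp only [PPS.er]
    have : (C j).B = BB (C j).b (C j).g := rfl
    rw [this]
    ring
  have h6 : ∑ j ∈ J, a j * TT f (C j).B z = ∑ j ∈ J, a j * ((C j).B z - ∑ v ∈ V, sC j v / (z - v)) :=
    Finset.sum_congr rfl fun j hj => by rw [h4 j hj]
  rw [h3, h6]
  have h5 : ∑ v ∈ V, s v / (z - v) = ∑ j ∈ J, a j * ∑ v ∈ V, sC j v / (z - v) := by
    have : ∀ j ∈ J, a j * ∑ v ∈ V, sC j v / (z - v) = ∑ v ∈ V, a j * sC j v / (z - v) := by
      intro j _
      rw [Finset.mul_sum]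
      exact Finset.sum_congr rfl fun v _ => by ring
    rw [Finset.sum_congr rfl this, Finset.sum_comm]
    refine Finset.sum_congr rfl fun v hv => ?_
    rw [hs v hv, Finset.sum_div]
  rw [h5]
  simp only [rJ, mul_sub, Finset.sum_sub_distrib]
  ring

end XPP
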